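import Pool.Agent.H381R4.BP.Stubs

set_option autoImplicit false
open MeasureTheory Matrix Filter Topology
open scoped ENNReal BigOperators Pointwise

namespace Pool.Agent.H381BP
open Pool.Agent.H381CM

theorem BTHx_meas (m : ℕ) {d : ℕ} (L : Set (V d)) (hL : MeasurableSet L) :
    Measurable (fun q : V d × E m => L.indicator (fun _ => (1 : ℝ≥0∞)) (‖q.2‖ • q.1)) := by
  have h1 : Measurable (fun q : V d × E m => ‖q.2‖ • q.1) := by
    have : Continuous (fun q : V d × E m => ‖q.2‖ • q.1) := by fun_prop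
    exact this.measurable
  exact (measurable_const.indicator hL).comp h1

theorem BTHx_hh (m : ℕ) {d : ℕ} (L : Set (V d)) (hL : MeasurableSet L) (x : V d) :
    hh m L x = ∫⁻ v : E m, L.indicator (fun _ => (1 : ℝ≥0∞)) (‖v‖ • x) := by
  unfold hh
  have hm : MeasurableSet {v : E m | ‖v‖ • x ∈ L} := by
    have h1 : Measurable (fun v : E m => ‖v‖ • x) := by
      have : Continuous (fun v : E m => ‖v‖ • x) := by fun_prop
      exact this.measurable
    exact h1 hL
  rw [← lintegral_indicator_one hm]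
  apply lintegral_congr
  intro v
  by_cases h : ‖v‖ • x ∈ L
  · rw [Set.indicator_of_mem h, Set.indicator_of_mem (show v ∈ {v : E m | ‖v‖ • x ∈ L} from h)]
    rfl
  · rw [Set.indicator_of_notMem h,
      Set.indicator_of_notMem (show v ∉ {v : E m | ‖v‖ • x ∈ L} from h)]

theorem T_BTH (hR : S_RAD) : S_BTH := by
  intro d m hm hmd A L hA hL hA0 hA1 hL0 hL1
  have h1 : ∫⁻ x in A, hh m L x =
      ∫⁻ v : E m, ∫⁻ x in A, L.indicator (fun _ => (1 : ℝ≥0∞)) (‖v‖ • x) := by
    simp_rw [BTHx_hh m L hL]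
    exact lintegral_lintegral_swap (BTHx_meas m L hL).aemeasurable
  have h2 : ∀ v : E m, ∫⁻ x in A, L.indicator (fun _ => (1 : ℝ≥0∞)) (‖v‖ • x) ≤
      min (volume A) (volume L / ENNReal.ofReal (‖v‖ ^ d)) := by
    intro v
    apply le_min
    · calc ∫⁻ x in A, L.indicator (fun _ => (1 : ℝ≥0∞)) (‖v‖ • x) ≤ ∫⁻ x in A, 1 := by
            apply lintegral_mono
            intro x
            exact Set.indicator_le_self' (fun _ _ => zero_le') _
        _ = volume A := by simp
    · by_cases hv : v = 0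
      · have h0 : ENNReal.ofReal (‖v‖ ^ d) = 0 := by
          rw [hv, norm_zero, zero_pow (by omega)]
          simp
        rw [h0, ENNReal.div_zero hL0]
        exact le_top
      · have hv0 : 0 < ‖v‖ := norm_pos_iff.mpr hv
        have hpre : volume ((fun x : V d => ‖v‖ • x) ⁻¹' L) =
            ENNReal.ofReal |(‖v‖ ^ Module.finrank ℝ (V d))⁻¹| * volume L :=
          Measure.addHaar_preimage_smul volume hv0.ne' L
        have hfin : Module.finrank ℝ (V d) = d := by simp
        have hms : MeasurableSet ((fun x : V d => ‖v‖ • x) ⁻¹' L) :=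
          (measurable_const_smul ‖v‖) hL
        calc ∫⁻ x in A, L.indicator (fun _ => (1 : ℝ≥0∞)) (‖v‖ • x) ≤
            ∫⁻ x : V d, L.indicator (fun _ => (1 : ℝ≥0∞)) (‖v‖ • x) :=
              setLIntegral_le_lintegral A _
          _ = ∫⁻ x : V d, ((fun x : V d => ‖v‖ • x) ⁻¹' L).indicator 1 x := rfl
          _ = volume ((fun x : V d => ‖v‖ • x) ⁻¹' L) := lintegral_indicator_one hms
          _ = volume L / ENNReal.ofReal (‖v‖ ^ d) := by
              rw [hpre, hfin, abs_of_pos (by positivity),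
                ENNReal.ofReal_inv_of_pos (by positivity), mul_comm]
              rfl
  rw [h1]
  calc ∫⁻ v : E m, ∫⁻ x in A, L.indicator (fun _ => (1 : ℝ≥0∞)) (‖v‖ • x) ≤
      ∫⁻ v : E m, min (volume A) (volume L / ENNReal.ofReal (‖v‖ ^ d)) := lintegral_mono h2
    _ = _ := hR d m hm hmd (volume A) (volume L) hA0 hA1 hL0 hL1

end Pool.Agent.H381BP
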