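import Pool.Agent.H381R4.BP.Stubs

set_option autoImplicit false
open MeasureTheory Matrix Filter Topology
open scoped ENNReal BigOperators Pointwise

namespace Pool.Agent.H381BP
open Pool.Agent.H381CM

theorem SECx_inf (d m : ℕ) (L : Set (E d)) (hL0 : (0 : E d) ∈ interior L)
    (Ξ : E m →ₗ[ℝ] E d) (hΞ : ¬ Function.Injective Ξ) : volume {v : E m | Ξ v ∈ L} = ⊤ := by
  obtain ⟨ε, hε, hball⟩ := Metric.isOpen_iff.mp isOpen_interior _ hL0
  have hc : Continuous Ξ := LinearMap.continuous_of_finiteDimensional Ξ
  have hopen : IsOpen (Ξ ⁻¹' (Metric.ball (0 : E d) ε)) := Metric.isOpen_ball.preimage hc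
  have h0 : (0 : E m) ∈ Ξ ⁻¹' (Metric.ball (0 : E d) ε) := by
    rw [Set.mem_preimage, map_zero]
    exact Metric.mem_ball_self hε
  obtain ⟨δ, hδ, hδb⟩ := Metric.isOpen_iff.mp hopen _ h0
  have hker : ∃ k : E m, k ≠ 0 ∧ Ξ k = 0 := by
    by_contra hcon
    push Not at hcon
    apply hΞ
    rw [injective_iff_map_eq_zero]
    intro a ha
    by_contra hne
    exact hcon a hne ha
  obtain ⟨k, hk0, hk⟩ := hker
  have hkn : 0 < ‖k‖ := norm_pos_iff.mpr hk0
  set k' : E m := (2 * δ / ‖k‖) • k with hk'
  have hk'n : ‖k'‖ = 2 * δ := by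
    rw [hk', norm_smul, Real.norm_of_nonneg (by positivity)]
    field_simp
  have hk'0 : Ξ k' = 0 := by rw [hk', map_smul, hk, smul_zero]
  set B : ℕ → Set (E m) := fun n => Metric.ball ((n : ℝ) • k') δ with hB
  have hsub : ∀ n, B n ⊆ {v : E m | Ξ v ∈ L} := by
    intro n v hv
    have h1 : v - (n : ℝ) • k' ∈ Metric.ball (0 : E m) δ := by
      rw [mem_ball_zero_iff, ← dist_eq_norm]
      exact hv
    have h2 := hδb h1
    rw [Set.mem_preimage, map_sub, map_smul, hk'0, smul_zero, sub_zero] at h2
    exact (show Ξ v ∈ L from interior_subset (hball h2))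
  have hdisj : Pairwise (Function.onFun Disjoint B) := by
    intro a b hab
    apply Metric.ball_disjoint_ball
    rw [dist_eq_norm, ← sub_smul, norm_smul, hk'n, Real.norm_eq_abs]
    have h1 : (1 : ℝ) ≤ |(a : ℝ) - b| := by
      have : (1 : ℤ) ≤ |(a : ℤ) - b| := by
        apply Int.one_le_abs
        intro h
        apply hab
        omega
      exact_mod_cast this
    nlinarith
  have hsum : volume (⋃ n, B n) = ⊤ := by
    rw [measure_iUnion hdisj (fun n => Metric.isOpen_ball.measurableSet)]
    have h1 : ∀ n, volume (B n) = volume (Metric.ball (0 : E m) δ) := by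
      intro n
      exact Measure.addHaar_ball_center volume _ _
    simp_rw [h1]
    apply ENNReal.tsum_const_eq_top_of_ne_zero
    exact (Metric.measure_ball_pos volume 0 hδ).ne'
  have := measure_mono (μ := (volume : Measure (E m))) (Set.iUnion_subset hsub)
  rw [hsum] at this
  exact top_le_iff.mp this

theorem T_SEC : S_SEC := by
  intro d m hm K L hK hL hL0 s hs hsec Ξ
  by_cases hΞ : Function.Injective Ξ
  · have hfin : Module.finrank ℝ (LinearMap.range Ξ) = m := by
      rw [LinearMap.finrank_range_of_inj hΞ]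
      simp
    set F := LinearMap.range Ξ with hF
    have hsecF := hsec F hfin
    set b : OrthonormalBasis (Fin m) ℝ F :=
      (stdOrthonormalBasis ℝ F).reindex (finCongr hfin) with hb
    set J : F ≃ₗᵢ[ℝ] E m := b.repr with hJ
    set T : E m →ₗ[ℝ] E m := J.toLinearEquiv.toLinearMap ∘ₗ Ξ.rangeRestrict with hT
    have hTv : ∀ v, ‖T v‖ = ‖Ξ v‖ := by
      intro v
      rw [hT]
      simp only [LinearMap.comp_apply]
      exact (J.norm_map (Ξ.rangeRestrict v)).trans rfl
    have hJT : ∀ v, ((J.symm (T v) : F) : E d) = Ξ v := by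
      intro v
      have : J.symm (T v) = Ξ.rangeRestrict v := by
        rw [hT]
        exact J.symm_apply_apply _
      rw [this]
      rfl
    have hTinj : Function.Injective T := by
      intro x y hxy
      apply hΞ
      rw [← hJT x, ← hJT y, hxy]
    have hdet : LinearMap.det T ≠ 0 := by
      intro h0
      have h1 := LinearMap.bot_lt_ker_of_det_eq_zero h0
      rw [LinearMap.ker_eq_bot.mpr hTinj] at h1
      exact lt_irrefl _ h1
    have hmp := J.symm.measurePreserving
    have key : ∀ M : Set (E d), MeasurableSet M → volume {v : E m | Ξ v ∈ M} =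
        ENNReal.ofReal |(LinearMap.det T)⁻¹| * volume {w : F | (w : E d) ∈ M} := by
      intro M hM
      have hMF : MeasurableSet {w : F | (w : E d) ∈ M} := measurable_subtype_coe hM
      have e1 : {v : E m | Ξ v ∈ M} = T ⁻¹' (J.symm ⁻¹' {w : F | (w : E d) ∈ M}) := by
        ext v
        simp only [Set.mem_preimage, Set.mem_setOf_eq]
        rw [hJT v]
      rw [e1, Measure.addHaar_preimage_linearMap volume hdet, hmp.measure_preimage
        hMF.nullMeasurableSet]
    have hball : volume {v : E m | ‖Ξ v‖ ≤ 1} = ENNReal.ofReal |(LinearMap.det T)⁻¹| * om m := by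
      have e1 : {v : E m | ‖Ξ v‖ ≤ 1} = T ⁻¹' (Metric.closedBall (0 : E m) 1) := by
        ext v
        simp only [Set.mem_preimage, Set.mem_setOf_eq, mem_closedBall_zero_iff]
        rw [hTv v]
      rw [e1, Measure.addHaar_preimage_linearMap volume hdet]
      rfl
    have hom0 : om m ≠ 0 := (Metric.measure_closedBall_pos volume _ one_pos).ne'
    have hom1 : om m ≠ ⊤ := (measure_closedBall_lt_top).ne
    rw [key K hK, key L hL, hball]
    set c := ENNReal.ofReal |(LinearMap.det T)⁻¹| with hc
    have e2 : s / om m * (c * om m) = c * s := by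
      rw [mul_comm c (om m), ← mul_assoc, ENNReal.div_mul_cancel hom0 hom1, mul_comm]
    rw [e2, ← mul_add]
    exact mul_le_mul_of_nonneg_left hsecF zero_le
  · rw [SECx_inf d m L hL0 Ξ hΞ, top_add]
    exact le_top

end Pool.Agent.H381BP
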